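import Pool.Agent.Y250.SS.Stm
import Pool.Agent.Helper793.Nir.Sph4

/-!
# SS-SG: the surface measure in graph coordinates
-/

set_option autoImplicit false

namespace Pool.Agent.Y614.SS

open MeasureTheory Set Complex Filter Topology
open scoped ENNReal NNReal
open Pool.Agent.Y250.SS
open Pool.Agent.Helper793.Nir (E3 S2 sig ster stv wt nsq wt_meas wt_pos ster_emb ster_cont sig_map
  stv_cont)

/-- the complex number with the coordinates `u` -/
noncomputable def cu (u : ℝ × ℝ) : ℂ := Complex.measurableEquivRealProd.symm u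

lemma cu_re (u : ℝ × ℝ) : (cu u).re = u.1 := rfl

lemma cu_im (u : ℝ × ℝ) : (cu u).im = u.2 := rfl

lemma cu_mp : MeasurePreserving cu volume volume :=
  Complex.volume_preserving_equiv_real_prod.symm _

lemma cu_emb : MeasurableEmbedding cu := Complex.measurableEquivRealProd.symm.measurableEmbedding

lemma cu_w (u : ℝ × ℝ) : 1 + ‖cu u‖ ^ 2 = w u := by
  rw [nsq, cu_re, cu_im]
  unfold w
  ring

lemma w_ge (u : ℝ × ℝ) : 1 ≤ w u := by
  unfold w
  nlinarith [sq_nonneg u.1, sq_nonneg u.2]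

lemma stv_cu (u : ℝ × ℝ) : stv (cu u) = !₂[(X u).1, (X u).2, 1 - 2 / w u] := by
  unfold stv X
  rw [cu_w, cu_re, cu_im]

lemma wt_cu (u : ℝ × ℝ) : wt (cu u) = 4 / w u ^ 2 := by
  unfold wt
  rw [cu_w]

/-- the part of the sphere -/
def TT (n : ℕ) : Set S2 := {x : S2 | (x : E3) 2 < 0 ∧ ((x : E3) 0, (x : E3) 1) ∈ S n}

lemma co_meas (i : Fin 3) : Measurable fun x : S2 => (x : E3) i := by
  have h : Continuous fun x : S2 => (x : E3) i := by fun_prop
  exact h.measurable

lemma TT_meas (h : S_XF) {n : ℕ} (hn : 1 ≤ n) : MeasurableSet (TT n) := by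
  have h1 : MeasurableSet (S n) := h.2.2.2.2.2 n hn
  exact (measurableSet_lt (co_meas 2) measurable_const).inter
    (((co_meas 0).prodMk (co_meas 1)) h1)

lemma U_meas (n : ℕ) : MeasurableSet (U n) :=
  measurableSet_lt (by fun_prop) measurable_const

lemma U_lt {n : ℕ} (hn : 1 ≤ n) {u : ℝ × ℝ} (hu : u ∈ U n) : u.1 ^ 2 + u.2 ^ 2 < 1 := by
  have h1 : u.1 ^ 2 + u.2 ^ 2 < 1 / (6 * n) := hu
  have hn' : (1 : ℝ) ≤ n := by exact_mod_cast hn
  have h2 : 1 / (6 * (n : ℝ)) ≤ 1 := by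
    rw [div_le_one (by positivity)]
    linarith
  linarith

lemma mem_TT (h : S_XF) {n : ℕ} (hn : 1 ≤ n) (u : ℝ × ℝ) : ster (cu u) ∈ TT n ↔ u ∈ U n := by
  have e1 : ster (cu u) ∈ TT n ↔ 1 - 2 / w u < 0 ∧ X u ∈ S n := by
    show (stv (cu u)) 2 < 0 ∧ ((stv (cu u)) 0, (stv (cu u)) 1) ∈ S n ↔ _
    rw [stv_cu]
    exact Iff.rfl
  have hw := w_ge u
  rw [e1]
  constructor
  · rintro ⟨h1, u', hu', h2⟩
    have h3 : w u < 2 := by
      rw [sub_neg, lt_div_iff₀ (by linarith)] at h1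
      linarith
    have h4 : u.1 ^ 2 + u.2 ^ 2 ≤ 1 := by
      unfold w at h3
      linarith
    have h5 := h.1 u h4
    have h6 := h.1 u' (U_lt hn hu').le
    have hw' := w_ge u'
    rw [h2, h5, div_eq_div_iff (by linarith) (by linarith)] at h6
    have h7 : w u' = w u := by linarith
    have h8 := congrArg Prod.fst h2
    have h9 := congrArg Prod.snd h2
    simp only [X] at h8 h9
    rw [h7, div_left_inj' (by linarith)] at h8 h9
    have h10 : u' = u := Prod.ext (by linarith) (by linarith)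
    rwa [← h10]
  · intro hu
    refine ⟨?_, ⟨u, hu, rfl⟩⟩
    have h1 := U_lt hn hu
    have h3 : w u < 2 := by
      unfold w
      linarith
    rw [sub_neg, lt_div_iff₀ (by linarith)]
    linarith

lemma pre_TT (h : S_XF) {n : ℕ} (hn : 1 ≤ n) : cu ⁻¹' (ster ⁻¹' TT n) = U n := by
  ext u
  exact mem_TT h hn u

lemma Lo_X (h : S_XF) {n : ℕ} (hn : 1 ≤ n) {u : ℝ × ℝ} (hu : u ∈ U n) :
    Lo (X u) = stv (cu u) := by
  have hw := w_ge u
  rw [stv_cu]
  unfold Lo
  rw [h.1 u (U_lt hn hu).le]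
  have e : -((2 - w u) / w u) = 1 - 2 / w u := by
    field_simp
    ring
  rw [e]

lemma jac_hh (h : S_XF) {n : ℕ} (hn : 1 ≤ n) {u : ℝ × ℝ} (hu : u ∈ U n) :
    0 ≤ jac u ∧ jac u * (1 / hh (X u)) = 4 / w u ^ 2 := by
  have hw := w_ge u
  have h1 := U_lt hn hu
  have h3 : w u < 2 := by
    unfold w
    linarith
  have h4 : 0 < 2 - w u := by linarith
  refine ⟨?_, ?_⟩
  · unfold jac
    positivity
  · rw [h.1 u h1.le]
    unfold jac
    field_simp

theorem sg : S_XF → S_CL → S_SG := by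
  intro h hCL n F hn hF
  have hT := TT_meas h hn
  have hF1 : Measurable fun x : S2 => F (x : E3) := hF.comp measurable_subtype_coe
  have hF2 : Measurable fun z : ℂ => F (ster z : E3) := hF1.comp ster_cont.measurable
  show ∫⁻ x in TT n, F x ∂sig = _
  rw [sig_map, setLIntegral_map hT hF1 ster_cont.measurable,
    setLIntegral_withDensity_eq_setLIntegral_mul _ wt_meas.ennreal_ofReal
      hF2 (ster_cont.measurable hT),
    ← cu_mp.setLIntegral_comp_preimage_emb cu_emb, pre_TT h hn, hCL n hn]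
  refine setLIntegral_congr_fun (U_meas n) fun u hu => ?_
  obtain ⟨h1, h2⟩ := jac_hh h hn hu
  show ENNReal.ofReal (wt (cu u)) * F (stv (cu u)) =
    ENNReal.ofReal (jac u) * (ENNReal.ofReal (1 / hh (X u)) * F (Lo (X u)))
  rw [← mul_assoc, ← ENNReal.ofReal_mul h1, h2, Lo_X h hn hu, wt_cu]

theorem sc : S_XF → S_CV → S_SC := by
  intro h hCV n F hn _
  have hT := TT_meas h hn
  show ∫ x in TT n, F x ∂sig = _
  rw [sig_map, ster_emb.setIntegral_map,
    setIntegral_withDensity_eq_setIntegral_toReal_smul wt_meas.ennreal_ofReal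
      (Eventually.of_forall fun _ => ENNReal.ofReal_lt_top) _ (ster_cont.measurable hT),
    ← cu_mp.setIntegral_preimage_emb cu_emb, pre_TT h hn, hCV n hn]
  refine setIntegral_congr_fun (U_meas n) fun u hu => ?_
  obtain ⟨h1, h2⟩ := jac_hh h hn hu
  show (ENNReal.ofReal (wt (cu u))).toReal • F (stv (cu u)) =
    ((jac u : ℝ) : ℂ) * (((1 / hh (X u) : ℝ) : ℂ) * F (Lo (X u)))
  rw [← mul_assoc, ← Complex.ofReal_mul, h2, Lo_X h hn hu,
    ENNReal.toReal_ofReal (wt_pos _).le, wt_cu, Complex.real_smul]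

end Pool.Agent.Y614.SS
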